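import Mathlib
import Pool.Agent.TH949.TX.SDefs
import Pool.Agent.TH949.TX.Expl

set_option autoImplicit false

open Complex MeasureTheory Set Filter Topology
open Pool.Agent.W189.TP (DS)

namespace Pool.Agent.TH554.TXU

open Pool.Agent.TH949.TX
open Pool.Agent.TH443.TXSum (ee_int ee_cont)

/-- the point of the line of integration -/
noncomputable def pt (σ a v : ℝ) : ℂ := (σ : ℂ) + ((a : ℂ) + v * I)

theorem pt_re {σ a : ℝ} (ha : a = 2 - σ) (v : ℝ) : (pt σ a v).re = 2 := by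
  simp [pt, ha]

theorem pt_cont (σ a : ℝ) : Continuous (pt σ a) := by
  unfold pt
  fun_prop

theorem sub_re {σ a : ℝ} (ha : a = 2 - σ) {z : ℂ} (hz : z.re ≤ 1) (v : ℝ) : 1 ≤ (pt σ a v - z).re := by
  rw [Complex.sub_re, pt_re ha]
  linarith

theorem sub_slit {σ a : ℝ} (ha : a = 2 - σ) {z : ℂ} (hz : z.re ≤ 1) (v : ℝ) : pt σ a v - z ∈ slitPlane :=
  Or.inl (by linarith [sub_re ha hz v])

theorem sub_ne {σ a : ℝ} (ha : a = 2 - σ) {z : ℂ} (hz : z.re ≤ 1) (v : ℝ) : pt σ a v - z ≠ 0 :=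
  slitPlane_ne_zero (sub_slit ha hz v)

theorem sub_norm {σ a : ℝ} (ha : a = 2 - σ) {z : ℂ} (hz : z.re ≤ 1) (v : ℝ) : 1 ≤ ‖pt σ a v - z‖ :=
  (sub_re ha hz v).trans (Complex.re_le_norm _)

theorem pt_ne {σ a : ℝ} (ha : a = 2 - σ) (v : ℝ) : pt σ a v ≠ 0 := by
  have := sub_ne ha (z := 0) (by simp) v
  simpa using this

theorem pt_norm {σ a : ℝ} (ha : a = 2 - σ) (v : ℝ) : 2 ≤ ‖pt σ a v‖ := by
  have := Complex.re_le_norm (pt σ a v)
  rw [pt_re ha] at this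
  exact this

/-- the weight function -/
noncomputable def kk (σ a : ℝ) (z : ℂ) (v : ℝ) : ℂ := Complex.log (pt σ a v - z) / pt σ a v

theorem kk_cont {σ a : ℝ} (ha : a = 2 - σ) {z : ℂ} (hz : z.re ≤ 1) : Continuous (kk σ a z) := by
  unfold kk
  refine Continuous.div ?_ (pt_cont σ a) (pt_ne ha)
  exact ((pt_cont σ a).sub continuous_const).clog (sub_slit ha hz)

theorem kk_bound {σ a : ℝ} (ha : a = 2 - σ) {z : ℂ} (hz : z.re ≤ 1) (v : ℝ) :
    ‖kk σ a z v‖ ≤ 1 + (‖z‖ + Real.pi) / 2 := by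
  have h1 := sub_norm ha hz v
  have h2 := pt_norm ha v
  have h3 : ‖Complex.log (pt σ a v - z)‖ ≤ ‖pt σ a v‖ + ‖z‖ + Real.pi := by
    have h4 : ‖Complex.log (pt σ a v - z)‖ ≤ |Real.log ‖pt σ a v - z‖| + |Complex.arg (pt σ a v - z)| := by
      have := Complex.norm_le_abs_re_add_abs_im (Complex.log (pt σ a v - z))
      rwa [Complex.log_re, Complex.log_im] at this
    have h5 : |Real.log ‖pt σ a v - z‖| ≤ ‖pt σ a v - z‖ := by
      rw [abs_of_nonneg (Real.log_nonneg h1)]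
      exact Real.log_le_self (norm_nonneg _)
    have h6 := Complex.abs_arg_le_pi (pt σ a v - z)
    have h7 := norm_sub_le (pt σ a v) z
    linarith
  unfold kk
  rw [norm_div, div_le_iff₀ (by linarith)]
  have h8 : (‖z‖ + Real.pi) / 2 * 2 ≤ (‖z‖ + Real.pi) / 2 * ‖pt σ a v‖ :=
    mul_le_mul_of_nonneg_left h2 (by positivity)
  nlinarith

theorem kk_int {σ a κ : ℝ} (ha : a = 2 - σ) (hκ : 0 < κ) {z : ℂ} (hz : z.re ≤ 1) (Y : ℝ) :
    Integrable (fun v : ℝ => kk σ a z v * EE κ Y a v) :=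
  (ee_int hκ Y a).bdd_mul (kk_cont ha hz).aestronglyMeasurable
    (Eventually.of_forall (kk_bound ha hz))

/-- the derivative along the horizontal segment -/
theorem log_ftc {σ a x0 : ℝ} (ha : a = 2 - σ) {ρ : ℂ} (hρ : x0 ≤ ρ.re) (hρ1 : ρ.re ≤ 1) (v : ℝ) :
    Complex.log (pt σ a v - ρ) - Complex.log (pt σ a v - ((x0 : ℂ) + ρ.im * I)) =
      ∫ x in x0..ρ.re, -1 / (pt σ a v - ((x : ℂ) + ρ.im * I)) := by
  have hz : ∀ x : ℝ, x ∈ uIcc x0 ρ.re → (((x : ℂ) + ρ.im * I).re) ≤ 1 := by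
    intro x hx
    rw [uIcc_of_le hρ] at hx
    simp
    linarith [hx.2]
  have h1 : ∀ x ∈ uIcc x0 ρ.re, HasDerivAt (fun x : ℝ => Complex.log (pt σ a v - ((x : ℂ) + ρ.im * I)))
      (-1 / (pt σ a v - ((x : ℂ) + ρ.im * I))) x := by
    intro x hx
    have h2 : HasDerivAt (fun x : ℝ => pt σ a v - ((x : ℂ) + ρ.im * I)) (-1) x := by
      have h3 : HasDerivAt (fun x : ℝ => (x : ℂ)) 1 x := Complex.ofRealCLM.hasDerivAt
      exact (h3.add_const _).const_sub _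
    exact h2.clog_real (sub_slit ha (hz x hx) v)
  rw [intervalIntegral.integral_eq_sub_of_hasDerivAt h1]
  · simp [Complex.re_add_im]
  · refine ContinuousOn.intervalIntegrable ?_
    refine ContinuousOn.div continuousOn_const (by fun_prop) fun x hx => sub_ne ha (hz x hx) v

/-- the integrand of the double integral -/
noncomputable def ff (σ a κ Y γ : ℝ) (x v : ℝ) : ℂ :=
  EE κ Y a v / ((pt σ a v - ((x : ℂ) + γ * I)) * pt σ a v)

theorem ff_int {σ a κ x0 : ℝ} (ha : a = 2 - σ) (hκ : 0 < κ) (Y : ℝ) {ρ : ℂ} (hρ1 : ρ.re ≤ 1) :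
    Integrable (Function.uncurry (ff σ a κ Y ρ.im)) ((volume.restrict (Ioc x0 ρ.re)).prod volume) := by
  have h1 : Integrable (fun p : ℝ × ℝ => EE κ Y a p.2) ((volume.restrict (Ioc x0 ρ.re)).prod volume) :=
    (ee_int hκ Y a).comp_snd _
  have hm : Measurable (Function.uncurry (ff σ a κ Y ρ.im)) := by
    unfold ff Function.uncurry
    have h2 : Measurable fun p : ℝ × ℝ => EE κ Y a p.2 := (ee_cont κ Y a).measurable.comp measurable_snd
    have h3 : Measurable fun p : ℝ × ℝ => pt σ a p.2 := (pt_cont σ a).measurable.comp measurable_snd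
    have h4 : Measurable fun p : ℝ × ℝ => ((p.1 : ℂ) + ρ.im * I) := by fun_prop
    exact h2.div ((h3.sub h4).mul h3)
  refine Integrable.mono h1 hm.aestronglyMeasurable ?_
  have h5 : ∀ᵐ p : ℝ × ℝ ∂((volume.restrict (Ioc x0 ρ.re)).prod volume), p.1 ∈ Ioc x0 ρ.re :=
    Measure.quasiMeasurePreserving_fst.ae (ae_restrict_mem measurableSet_Ioc)
  filter_upwards [h5] with p hp
  have hz : ((p.1 : ℂ) + ρ.im * I).re ≤ 1 := by
    simp
    linarith [hp.2]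
  have h6 := sub_norm ha hz p.2
  have h7 := pt_norm ha p.2
  unfold Function.uncurry ff
  rw [norm_div, norm_mul]
  refine div_le_self (norm_nonneg _) ?_
  nlinarith

theorem inner_val {σ a κ x0 x : ℝ} (hσ0 : 0 < σ) (hσ1 : σ < 1) (ha : a = 2 - σ) (hκ : 0 < κ) (Y γ : ℝ)
    (hx0 : 0 < x0) (hx : x0 ≤ x) (hx1 : x ≤ 1) :
    ∫ v : ℝ, ff σ a κ Y γ x v =
      ((∫ v : ℝ, EE κ Y a v / ((a : ℂ) + v * I - (((x : ℂ) + γ * I) - σ))) -
        ∫ v : ℝ, EE κ Y a v / ((a : ℂ) + v * I - (-(σ : ℂ)))) / ((x : ℂ) + γ * I) := by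
  have hz0 : ((x : ℂ) + γ * I) ≠ 0 := by
    intro h
    have := congrArg Complex.re h
    simp at this
    linarith
  have hz1 : ((x : ℂ) + γ * I).re ≤ 1 := by simpa using hx1
  have hp1 := (t_polar hκ (a := a) (z := ((x : ℂ) + γ * I) - σ) (by simp; linarith) (by simp; linarith) Y).1
  have hp2 := (t_polar hκ (a := a) (z := -(σ : ℂ)) (by simp; linarith) (by simp; linarith) Y).1
  rw [← integral_sub hp1 hp2, ← integral_div]
  refine integral_congr_ae (Eventually.of_forall fun v => ?_)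
  have h1 := sub_ne ha hz1 v
  have h2 := pt_ne ha v
  have h3 : (a : ℂ) + v * I - (((x : ℂ) + γ * I) - σ) = pt σ a v - ((x : ℂ) + γ * I) := by
    unfold pt
    ring
  have h4 : (a : ℂ) + v * I - (-(σ : ℂ)) = pt σ a v := by
    unfold pt
    ring
  simp only
  rw [h3, h4]
  unfold ff
  field_simp
  ring

theorem fubini {η σ a x0 : ℝ} (hη : 0 < η) (ha : a = 2 - σ) {ρ : ℂ} (hρ : x0 ≤ ρ.re) (hρ1 : ρ.re ≤ 1)
    {Y : ℝ} (hY : 0 < Y) :
    (∫ v : ℝ, kk σ a ρ v * EE (η * Y) Y a v) -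
      (∫ v : ℝ, kk σ a ((x0 : ℂ) + ρ.im * I) v * EE (η * Y) Y a v) =
      -∫ x in x0..ρ.re, ∫ v : ℝ, ff σ a (η * Y) Y ρ.im x v := by
  have hκ : 0 < η * Y := by positivity
  have hz0 : ((x0 : ℂ) + ρ.im * I).re ≤ 1 := by
    simp
    linarith
  rw [← integral_sub (kk_int ha hκ hρ1 Y) (kk_int ha hκ hz0 Y), intervalIntegral.integral_of_le hρ,
    integral_integral_swap (ff_int ha hκ Y hρ1), ← integral_neg]
  refine integral_congr_ae (Eventually.of_forall fun v => ?_)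
  simp only
  rw [← intervalIntegral.integral_of_le hρ]
  have h1 := log_ftc ha hρ hρ1 v
  unfold kk ff
  have h2 : ∀ x : ℝ, EE (η * Y) Y a v / ((pt σ a v - ((x : ℂ) + ρ.im * I)) * pt σ a v) =
      -(EE (η * Y) Y a v / pt σ a v) * (-1 / (pt σ a v - ((x : ℂ) + ρ.im * I))) := by
    intro x
    rw [div_mul_eq_div_div_swap]
    ring
  simp_rw [h2]
  rw [intervalIntegral.integral_const_mul, ← h1]
  ring

/-- the term with a fixed logarithm -/
theorem fixed {η σ a x0 : ℝ} (hη : 0 < η) (hη1 : η ≤ 1 / 4) (hσ0 : 0 < σ) (hσ1 : σ < 1) (ha : a = 2 - σ)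
    (hx0 : 0 < x0) (hx0σ : x0 < σ) {z : ℂ} (hz : z.re = x0) :
    Tendsto (fun Y : ℝ => ∫ v : ℝ, kk σ a z v * EE (η * Y) Y a v) atTop (𝓝 0) := by
  set b : ℝ := (x0 - σ) / 2 with hb
  have hb0 : b < 0 := by rw [hb]; linarith
  have hb1 : -(1 / 2) < b := by rw [hb]; linarith
  set V : ℝ := 4 + 3 / η with hVd
  have hV1 : 1 ≤ V := by
    rw [hVd]
    have : 0 < 3 / η := by positivity
    linarith
  have hV : 4 + 3 / η ≤ V ^ 2 := by
    rw [← hVd]
    nlinarith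
  have hzle : z.re ≤ 1 := by rw [hz]; linarith
  refine t_shift (k1 := kk σ a z) (k := fun w => Complex.log ((σ : ℂ) + w - z) / ((σ : ℂ) + w)) (a := a) (b := b)
    (V := V) (η := η) (B := 1 + (‖z‖ + Real.pi) / 2) hη (by rw [ha]; linarith) (by linarith) (by nlinarith) (by
      have h1 : max (a ^ 2) (b ^ 2) ≤ 4 := by
        refine max_le (by rw [ha]; nlinarith) (by nlinarith)
      have h2 : η * (4 + 3 / η) = 4 * η + 3 := by field_simp
      have h3 : η * (4 + 3 / η) ≤ η * V ^ 2 := mul_le_mul_of_nonneg_left hV hη.le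
      have h4 : a < 2 := by rw [ha]; linarith
      nlinarith) (kk_cont ha hzle) (kk_bound ha hzle) ?_ ?_
  · intro w hw
    obtain ⟨⟨hw1, hw2⟩, hw3, hw4⟩ := Complex.mem_reProdIm.1 hw
    have h1 : (σ : ℂ) + w - z ∈ slitPlane := by
      refine Or.inl ?_
      rw [Complex.sub_re, Complex.add_re, Complex.ofReal_re, hz]
      linarith
    have h2 : (σ : ℂ) + w ≠ 0 := by
      intro h
      have := congrArg Complex.re h
      rw [Complex.add_re, Complex.ofReal_re, Complex.zero_re] at this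
      linarith
    refine DifferentiableAt.div (DifferentiableAt.clog (by fun_prop) h1) (by fun_prop) h2
  · intro v _
    rfl

theorem err_bound {η σ a x0 x : ℝ} (hη : 0 < η) (hη1 : η ≤ 1 / 4) (hσ0 : 0 < σ) (hσ1 : σ < 1) (ha : a = 2 - σ)
    (hx0 : 0 < x0) (hx : x0 ≤ x) (hx1 : x ≤ 1) (γ : ℝ) {Y : ℝ} (hY : 0 < Y) :
    ‖2 * Real.pi * (cexp (Y * ex η (σ : ℂ) ((x : ℂ) + γ * I)) / ((x : ℂ) + γ * I)) -
      ∫ v : ℝ, ff σ a (η * Y) Y γ x v‖ ≤
      (2 * Real.pi * Real.exp (η * Y - Y) + 2 * Real.pi * Real.exp (Y * (η * σ ^ 2 - σ)) +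
        2 * Real.pi * Real.exp (η * Y - Y)) / x0 := by
  have hκ : 0 < η * Y := by positivity
  rw [inner_val hσ0 hσ1 ha hκ Y γ hx0 hx hx1]
  have hz : x0 ≤ ‖(x : ℂ) + γ * I‖ := by
    refine le_trans ?_ (Complex.re_le_norm _)
    simpa using hx
  have hp1 := (t_polar hκ (a := a) (z := ((x : ℂ) + γ * I) - σ) (by simp; linarith) (by simp; linarith) Y).2
  have hp2 := (t_polar hκ (a := a) (z := -(σ : ℂ)) (by simp; linarith) (by simp; linarith) Y).2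
  set P1 := ∫ v : ℝ, EE (η * Y) Y a v / ((a : ℂ) + v * I - (((x : ℂ) + γ * I) - σ)) with hP1
  set P2 := ∫ v : ℝ, EE (η * Y) Y a v / ((a : ℂ) + v * I - (-(σ : ℂ))) with hP2
  have e1 : cexp (Y * ex η (σ : ℂ) ((x : ℂ) + γ * I)) =
      cexp (((η * Y : ℝ) : ℂ) * (((x : ℂ) + γ * I) - σ) ^ 2 + (((x : ℂ) + γ * I) - σ) * Y) := by
    unfold ex
    congr 1
    push_cast
    ring
  have e2 : ‖2 * (Real.pi : ℂ) * cexp (((η * Y : ℝ) : ℂ) * (-(σ : ℂ)) ^ 2 + (-(σ : ℂ)) * Y)‖ =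
      2 * Real.pi * Real.exp (Y * (η * σ ^ 2 - σ)) := by
    have h1 : ((η * Y : ℝ) : ℂ) * (-(σ : ℂ)) ^ 2 + (-(σ : ℂ)) * Y = ((Y * (η * σ ^ 2 - σ) : ℝ) : ℂ) := by
      push_cast
      ring
    rw [h1, ← Complex.ofReal_exp, norm_mul, norm_mul, Complex.norm_real, Complex.norm_real,
      Real.norm_of_nonneg (Real.exp_pos _).le, Real.norm_of_nonneg Real.pi_pos.le]
    simp
  rw [e1]
  set E1 := 2 * (Real.pi : ℂ) * cexp (((η * Y : ℝ) : ℂ) * (((x : ℂ) + γ * I) - σ) ^ 2 +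
    (((x : ℂ) + γ * I) - σ) * Y) with hE1
  set E2 := 2 * (Real.pi : ℂ) * cexp (((η * Y : ℝ) : ℂ) * (-(σ : ℂ)) ^ 2 + (-(σ : ℂ)) * Y) with hE2
  have e3 : 2 * (Real.pi : ℂ) * (cexp (((η * Y : ℝ) : ℂ) * (((x : ℂ) + γ * I) - σ) ^ 2 +
      (((x : ℂ) + γ * I) - σ) * Y) / ((x : ℂ) + γ * I)) - (P1 - P2) / ((x : ℂ) + γ * I) =
      (-(P1 - E1) + E2 + (P2 - E2)) / ((x : ℂ) + γ * I) := by
    rw [hE1]
    ring
  rw [e3, norm_div]
  refine div_le_div₀ (by positivity) ?_ hx0 hz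
  have h1 := norm_add_le (-(P1 - E1) + E2) (P2 - E2)
  have h2 := norm_add_le (-(P1 - E1)) E2
  rw [norm_neg] at h2
  rw [e2] at h2
  linarith

theorem err_tendsto {η σ x0 : ℝ} (hη : 0 < η) (hη1 : η ≤ 1 / 4) (hσ0 : 0 < σ) (hσ1 : σ < 1) (l : ℝ) :
    Tendsto (fun Y : ℝ => (2 * Real.pi * Real.exp (η * Y - Y) + 2 * Real.pi * Real.exp (Y * (η * σ ^ 2 - σ)) +
        2 * Real.pi * Real.exp (η * Y - Y)) / x0 * l) atTop (𝓝 0) := by
  have h1 : Tendsto (fun Y : ℝ => Real.exp (η * Y - Y)) atTop (𝓝 0) := by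
    refine Real.tendsto_exp_atBot.comp ?_
    have : (fun Y : ℝ => η * Y - Y) = fun Y : ℝ => (η - 1) * Y := by
      funext Y
      ring
    rw [this]
    exact tendsto_id.const_mul_atTop_of_neg (by linarith)
  have h2 : Tendsto (fun Y : ℝ => Real.exp (Y * (η * σ ^ 2 - σ))) atTop (𝓝 0) := by
    refine Real.tendsto_exp_atBot.comp ?_
    refine tendsto_id.atTop_mul_const_of_neg ?_
    nlinarith
  have h3 := ((((h1.const_mul (2 * Real.pi)).add (h2.const_mul (2 * Real.pi))).add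
    (h1.const_mul (2 * Real.pi))).div_const x0).mul_const l
  simpa using h3

theorem t_ulog {η σ a x0 : ℝ} (hη : 0 < η) (hη1 : η ≤ 1 / 4) (hσ0 : 0 < σ) (hσ1 : σ < 1) (ha : a = 2 - σ)
    (hx0 : 0 < x0) (hx0σ : x0 < σ) {ρ : ℂ} (hρ : x0 ≤ ρ.re) (hρ1 : ρ.re ≤ 1) :
    (∀ Y : ℝ, 0 < Y → Integrable (fun v : ℝ => Complex.log ((σ : ℂ) + ((a : ℂ) + v * I) - ρ) /
      ((σ : ℂ) + ((a : ℂ) + v * I)) * EE (η * Y) Y a v)) ∧
    Tendsto (fun Y : ℝ => (∫ v : ℝ, Complex.log ((σ : ℂ) + ((a : ℂ) + v * I) - ρ) /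
        ((σ : ℂ) + ((a : ℂ) + v * I)) * EE (η * Y) Y a v) +
      2 * Real.pi * ∫ x in x0..ρ.re, cexp (Y * ex η (σ : ℂ) ((x : ℂ) + ρ.im * I)) / ((x : ℂ) + ρ.im * I))
      atTop (𝓝 0) := by
  refine ⟨fun Y hY => kk_int ha (by positivity) hρ1 Y, ?_⟩
  have hz0 : ((x0 : ℂ) + ρ.im * I).re = x0 := by simp
  have hfix := fixed hη hη1 hσ0 hσ1 ha hx0 hx0σ hz0
  have herr := err_tendsto (x0 := x0) hη hη1 hσ0 hσ1 (|ρ.re - x0|)
  have key : ∀ Y : ℝ, 0 < Y → ‖((∫ v : ℝ, kk σ a ρ v * EE (η * Y) Y a v) +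
      2 * Real.pi * ∫ x in x0..ρ.re, cexp (Y * ex η (σ : ℂ) ((x : ℂ) + ρ.im * I)) / ((x : ℂ) + ρ.im * I)) -
      ∫ v : ℝ, kk σ a ((x0 : ℂ) + ρ.im * I) v * EE (η * Y) Y a v‖ ≤
      (2 * Real.pi * Real.exp (η * Y - Y) + 2 * Real.pi * Real.exp (Y * (η * σ ^ 2 - σ)) +
        2 * Real.pi * Real.exp (η * Y - Y)) / x0 * |ρ.re - x0| := by
    intro Y hY
    have hκ : 0 < η * Y := by positivity
    have h1 := fubini hη ha hρ hρ1 hY
    have hi1 : IntervalIntegrable (fun x : ℝ => 2 * Real.pi * (cexp (Y * ex η (σ : ℂ) ((x : ℂ) + ρ.im * I)) /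
        ((x : ℂ) + ρ.im * I))) volume x0 ρ.re := by
      refine ContinuousOn.intervalIntegrable ?_
      refine ContinuousOn.mul continuousOn_const ?_
      refine ContinuousOn.div ?_ (by fun_prop) ?_
      · unfold ex
        fun_prop
      · intro x hx h
        rw [uIcc_of_le hρ] at hx
        have := congrArg Complex.re h
        simp at this
        linarith [hx.1]
    have hi2 : IntervalIntegrable (fun x : ℝ => ∫ v : ℝ, ff σ a (η * Y) Y ρ.im x v) volume x0 ρ.re := by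
      rw [intervalIntegrable_iff_integrableOn_Ioc_of_le hρ]
      exact (ff_int ha hκ Y hρ1).integral_prod_left
    have h2 : ((∫ v : ℝ, kk σ a ρ v * EE (η * Y) Y a v) +
      2 * Real.pi * ∫ x in x0..ρ.re, cexp (Y * ex η (σ : ℂ) ((x : ℂ) + ρ.im * I)) / ((x : ℂ) + ρ.im * I)) -
      (∫ v : ℝ, kk σ a ((x0 : ℂ) + ρ.im * I) v * EE (η * Y) Y a v) =
      ∫ x in x0..ρ.re, (2 * Real.pi * (cexp (Y * ex η (σ : ℂ) ((x : ℂ) + ρ.im * I)) / ((x : ℂ) + ρ.im * I)) -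
        ∫ v : ℝ, ff σ a (η * Y) Y ρ.im x v) := by
      rw [intervalIntegral.integral_sub hi1 hi2, intervalIntegral.integral_const_mul]
      linear_combination h1
    rw [h2]
    refine intervalIntegral.norm_integral_le_of_norm_le_const fun x hx => ?_
    rw [uIoc_of_le hρ] at hx
    exact err_bound hη hη1 hσ0 hσ1 ha hx0 hx.1.le (hx.2.trans hρ1) ρ.im hY
  have h3 : Tendsto (fun Y : ℝ => ((∫ v : ℝ, kk σ a ρ v * EE (η * Y) Y a v) +
      2 * Real.pi * ∫ x in x0..ρ.re, cexp (Y * ex η (σ : ℂ) ((x : ℂ) + ρ.im * I)) / ((x : ℂ) + ρ.im * I)) -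
      ∫ v : ℝ, kk σ a ((x0 : ℂ) + ρ.im * I) v * EE (η * Y) Y a v) atTop (𝓝 0) :=
    squeeze_zero_norm' (by filter_upwards [eventually_gt_atTop 0] with Y hY using key Y hY) herr
  have h4 := h3.add hfix
  rw [add_zero] at h4
  refine h4.congr fun Y => ?_
  rw [sub_add_cancel]
  rfl

end Pool.Agent.TH554.TXU
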